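import Pool.Agent.Helper5.ST.GoalsB

open Pool.Agent.Helper5.Gap Filter Topology
open scoped InnerProductSpace commutatorElement
open Pool.Agent.Helper5.ST

namespace Pool.Agent.Helper48.ST

universe u

section near

variable {G : Type u} [Group G] {V : Type u} [NormedAddCommGroup V] [InnerProductSpace ℝ V]

/-- The compression of `π g` to `E`. -/
noncomputable def cmp (π : G →* (V ≃ₗᵢ[ℝ] V)) (E : Submodule ℝ V) [FiniteDimensional ℝ E]
    (g : G) : E →L[ℝ] E :=
  E.orthogonalProjectionOnto.comp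
    (((π g).toContinuousLinearEquiv : V →L[ℝ] V).comp E.subtypeL)

theorem cmp_apply (π : G →* (V ≃ₗᵢ[ℝ] V)) (E : Submodule ℝ V) [FiniteDimensional ℝ E]
    (g : G) (v : E) : ((cmp π E g v : E) : V) = E.starProjection (π g v) := rfl

theorem norm_cmp_le (π : G →* (V ≃ₗᵢ[ℝ] V)) (E : Submodule ℝ V) [FiniteDimensional ℝ E]
    (g : G) : ‖cmp π E g‖ ≤ 1 := by
  refine ContinuousLinearMap.opNorm_le_bound _ zero_le_one fun v => ?_
  rw [one_mul]
  have h1 : ‖cmp π E g v‖ = ‖E.starProjection (π g (v : V))‖ := rfl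
  rw [h1]
  refine (E.norm_starProjection_apply_le _).trans ?_
  rw [(π g).norm_map]
  rfl

/-- The separated finite subsets of `ball X j`. -/
def Sep (X : Set G) (π : G →* (V ≃ₗᵢ[ℝ] V)) (E : Submodule ℝ V) (j : ℕ) (F : Finset G) : Prop :=
  (∀ g ∈ F, g ∈ ball X j) ∧ ∀ g ∈ F, ∀ h ∈ F, g ≠ h → ¬ Nr π E (1 / 8) (h⁻¹ * g)

theorem dist_cmp (hapi : SNrApi.{u}) {X : Set G} {π : G →* (V ≃ₗᵢ[ℝ] V)} {b : G → V}
    {E : Submodule ℝ V} [FiniteDimensional ℝ E] {β ε : ℝ} (hA : IsAA X π b E β ε) {r₀ : ℕ}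
    (hε : 200 * (r₀ + 1) * ε ≤ 1) {g h : G} (hg : g ∈ ball X r₀) (hh : h ∈ ball X r₀)
    (hn : ¬ Nr π E (1 / 8) (h⁻¹ * g)) : 1 / 9 ≤ ‖cmp π E g - cmp π E h‖ := by
  unfold Nr at hn
  push Not at hn
  obtain ⟨v, hv, hlt⟩ := hn
  have h1 : ‖π g v - π h v‖ = ‖π (h⁻¹ * g) v - v‖ := by
    have e1 : π (h⁻¹ * g) v - v = π h⁻¹ (π g v - π h v) := by
      have e2 : π h⁻¹ (π h v) = v := by
        have e3 : (π h⁻¹ * π h) v = v := by rw [← map_mul, inv_mul_cancel, map_one]; rfl
        exact e3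
      have e4 : π (h⁻¹ * g) v = π h⁻¹ (π g v) := by rw [map_mul]; rfl
      rw [map_sub, e2, e4]
    rw [e1, (π h⁻¹).norm_map]
  have h2 := (hapi G X V π b E β ε hA r₀ r₀ g h hg hh).2.1 v hv
  have h3 := (hapi G X V π b E β ε hA r₀ r₀ h g hh hg).2.1 v hv
  have hvpos : 0 < ‖v‖ := by
    rcases (norm_nonneg v).lt_or_eq with h | h
    · exact h
    · exfalso
      have hv0 : v = 0 := by rw [← norm_eq_zero]; exact h.symm
      rw [hv0] at hlt
      simp at hlt
  set w : E := ⟨v, hv⟩ with hw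
  have h4 : ‖(cmp π E g - cmp π E h) w‖ ≤ ‖cmp π E g - cmp π E h‖ * ‖v‖ :=
    (cmp π E g - cmp π E h).le_opNorm w
  have h5 : ‖(cmp π E g - cmp π E h) w‖ = ‖E.starProjection (π g v) - E.starProjection (π h v)‖ :=
    rfl
  have h6 : ‖π g v - π h v‖ ≤ ‖E.starProjection (π g v) - E.starProjection (π h v)‖
      + ‖π g v - E.starProjection (π g v)‖ + ‖π h v - E.starProjection (π h v)‖ := by
    have e2 : π g v - π h v = (E.starProjection (π g v) - E.starProjection (π h v))
        + (π g v - E.starProjection (π g v)) - (π h v - E.starProjection (π h v)) := by abel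
    calc ‖π g v - π h v‖ = ‖(E.starProjection (π g v) - E.starProjection (π h v))
        + (π g v - E.starProjection (π g v)) - (π h v - E.starProjection (π h v))‖ := by rw [← e2]
      _ ≤ _ := (norm_sub_le _ _).trans (by gcongr; exact norm_add_le _ _)
  have h7 : (r₀ : ℝ) * ε ≤ 1 / 200 := by
    have := hA.ε0
    nlinarith
  rw [h1] at h6
  have h8 : (r₀ : ℝ) * ε * ‖v‖ ≤ 1 / 200 * ‖v‖ := mul_le_mul_of_nonneg_right h7 hvpos.le
  rw [h5] at h4
  by_contra hcon
  push Not at hcon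
  have h9 : ‖cmp π E g - cmp π E h‖ * ‖v‖ < 1 / 9 * ‖v‖ := mul_lt_mul_of_pos_right hcon hvpos
  nlinarith

theorem sep_card (hpack : SPack.{u}) (hapi : SNrApi.{u}) {X : Set G} {π : G →* (V ≃ₗᵢ[ℝ] V)}
    {b : G → V} {E : Submodule ℝ V} [FiniteDimensional ℝ E] {β ε : ℝ} (hA : IsAA X π b E β ε)
    {r₀ : ℕ} (hε : 200 * (r₀ + 1) * ε ≤ 1) {j : ℕ} (hj : j ≤ r₀) {F : Finset G}
    (hF : Sep X π E j F) : F.card ≤ 19 ^ ((Module.finrank ℝ E) ^ 2) := by
  classical
  have hd : ∀ g ∈ F, ∀ h ∈ F, g ≠ h → 1 / 9 ≤ ‖cmp π E g - cmp π E h‖ := fun g hg h hh hne =>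
    dist_cmp hapi hA hε (ball_mono hj (hF.1 g hg)) (ball_mono hj (hF.1 h hh)) (hF.2 g hg h hh hne)
  have hinj : Set.InjOn (cmp π E) F := by
    intro g hg h hh heq
    by_contra hne
    have := hd g hg h hh hne
    have h0 : cmp π E g - cmp π E h = 0 := sub_eq_zero.2 heq
    have h1 : ‖cmp π E g - cmp π E h‖ = 0 := by
      rw [h0]; exact ContinuousLinearMap.opNorm_zero
    linarith
  have hcard : (F.image (cmp π E)).card = F.card := Finset.card_image_of_injOn hinj
  have hp := hpack (E →L[ℝ] E) (F.image (cmp π E))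
    (by
      intro c hc
      obtain ⟨g, _, rfl⟩ := Finset.mem_image.1 hc
      exact norm_cmp_le π E g)
    (by
      intro c hc d hd' hne
      obtain ⟨g, hg, rfl⟩ := Finset.mem_image.1 hc
      obtain ⟨h, hh, rfl⟩ := Finset.mem_image.1 hd'
      exact hd g hg h hh (fun heq => hne (by rw [heq])))
  have hfr : Module.finrank ℝ (E →L[ℝ] E) = (Module.finrank ℝ E) ^ 2 := by
    rw [← (LinearMap.toContinuousLinearMap (𝕜 := ℝ) (E := E) (F' := E)).finrank_eq,
      Module.finrank_linearMap, sq]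
  rw [hcard, hfr] at hp
  exact hp

end near

/-- NEAR -/
theorem near (hpack : SPack.{u}) (hapi : SNrApi.{u}) : SNear.{u} := by
  classical
  intro G _ X V _ _ π b E _ β ε hA hXf hX r₀ hr hε
  -- the maximal sizes
  let P : ℕ → ℕ → Prop := fun j n => ∃ F : Finset G, Sep X π E j F ∧ F.card = n
  let a : ℕ → ℕ := fun j => Nat.findGreatest (P j) r₀
  have hP0 : ∀ j, P j 0 := fun j => ⟨∅, ⟨by simp, by simp⟩, by simp⟩
  have haP : ∀ j, P j (a j) := fun j => Nat.findGreatest_spec (Nat.zero_le r₀) (hP0 j)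
  have hale : ∀ j, a j ≤ r₀ := fun j => Nat.findGreatest_le r₀
  have hmax : ∀ j ≤ r₀, ∀ F : Finset G, Sep X π E j F → F.card ≤ a j := by
    intro j hj F hF
    exact Nat.le_findGreatest ((sep_card hpack hapi hA hε hj hF).trans hr) ⟨F, hF, rfl⟩
  have hone : ∀ v : V, π (1 : G) v = v := fun v => by simp
  have hNr1 : Nr π E (1 / 8) (1 : G) := by
    intro v _
    rw [hone, sub_self, norm_zero]
    positivity
  have ha0 : 1 ≤ a 0 := by
    have := hmax 0 (Nat.zero_le _) {1} ⟨by simp [one_mem_ball], by simp⟩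
    simpa using this
  have hmono : ∀ j, j + 1 ≤ r₀ → a j ≤ a (j + 1) := by
    intro j hj
    obtain ⟨F, hF, hc⟩ := haP j
    rw [← hc]
    exact hmax (j + 1) hj F ⟨fun g hg => ball_mono (Nat.le_succ j) (hF.1 g hg), hF.2⟩
  obtain ⟨j, hj, hja⟩ : ∃ j, j + 1 ≤ r₀ ∧ a (j + 1) = a j := by
    by_contra hcon
    push Not at hcon
    have hgrow : ∀ j ≤ r₀, j + 1 ≤ a j := by
      intro j
      induction j with
      | zero => intro _; simpa using ha0
      | succ j ih =>
        intro hj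
        have h1 := ih (by omega)
        have h2 := hmono j hj
        have h3 := hcon j hj
        omega
    have := hgrow r₀ le_rfl
    have := hale r₀
    omega
  obtain ⟨F, hF, hFc⟩ := haP j
  -- the set of elements near the identity
  set S₀ : Set G := {g | g ∈ ball X (2 * r₀ + 1) ∧ Nr π E (1 / 8) g} with hS₀
  have hcov : ∀ g ∈ ball X (j + 1), ∃ f ∈ F, f⁻¹ * g ∈ S₀ := by
    intro g hg
    by_cases hgF : g ∈ F
    · refine ⟨g, hgF, ?_⟩
      rw [inv_mul_cancel]
      exact ⟨one_mem_ball _, hNr1⟩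
    by_contra hcon
    push Not at hcon
    have hno : ∀ f ∈ F, ¬ Nr π E (1 / 8) (f⁻¹ * g) := by
      intro f hf hNr
      refine hcon f hf ⟨?_, hNr⟩
      have := mul_mem_ball (inv_mem_ball (hF.1 f hf)) hg
      exact ball_mono (by omega) this
    have hsep : Sep X π E (j + 1) (insert g F) := by
      constructor
      · intro x hx
        rcases Finset.mem_insert.1 hx with rfl | hx
        · exact hg
        · exact ball_mono (Nat.le_succ j) (hF.1 x hx)
      · intro x hx y hy hxy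
        rcases Finset.mem_insert.1 hx with hx1 | hx1
        · rcases Finset.mem_insert.1 hy with hy1 | hy1
          · exact absurd (hx1.trans hy1.symm) hxy
          · rw [hx1]
            exact hno y hy1
        · rcases Finset.mem_insert.1 hy with hy1 | hy1
          · intro hNr
            rw [hy1] at hNr
            have h1 : g⁻¹ * x ∈ ball X (j + 1 + j) :=
              mul_mem_ball (inv_mem_ball hg) (hF.1 x hx1)
            have h2 := (hapi G X V π b E β ε hA (j + 1 + j) 0 (g⁻¹ * x) 1 h1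
              (one_mem_ball 0)).2.2.2.1 _ hNr
            rw [mul_inv_rev, inv_inv] at h2
            exact hno x hx1 h2
          · exact hF.2 x hx1 y hy1 hxy
    have h1 := hmax (j + 1) hj _ hsep
    rw [Finset.card_insert_of_notMem hgF] at h1
    omega
  refine ⟨S₀, fun g hg => hg.1, fun g hg => hg.2, ?_⟩
  -- the cosets
  have hcos : ∀ l : List G, (∀ x ∈ l, x ∈ X ∨ x⁻¹ ∈ X) →
      ∃ f ∈ F, f⁻¹ * l.prod ∈ Subgroup.closure S₀ := by
    intro l
    induction l with
    | nil =>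
      intro _
      obtain ⟨f, hf, h⟩ := hcov 1 (one_mem_ball _)
      exact ⟨f, hf, by simpa using Subgroup.subset_closure h⟩
    | cons x l ih =>
      intro hl
      obtain ⟨f, hf, h⟩ := ih (fun y hy => hl y (List.mem_cons_of_mem _ hy))
      have hx : x ∈ ball X 1 := ⟨[x], by simp, by simpa using hl x (List.mem_cons_self), by simp⟩
      have hxf : x * f ∈ ball X (j + 1) := ball_mono (by omega) (mul_mem_ball hx (hF.1 f hf))
      obtain ⟨f', hf', h'⟩ := hcov _ hxf
      refine ⟨f', hf', ?_⟩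
      have e : f'⁻¹ * (x :: l).prod = f'⁻¹ * (x * f) * (f⁻¹ * l.prod) := by
        rw [List.prod_cons]; group
      rw [e]
      exact mul_mem (Subgroup.subset_closure h') h
  have hfin : Finite (G ⧸ Subgroup.closure S₀) := by
    have hsurj : Function.Surjective (fun f : F => (QuotientGroup.mk (f : G) :
        G ⧸ Subgroup.closure S₀)) := by
      intro q
      obtain ⟨g, rfl⟩ := QuotientGroup.mk_surjective q
      obtain ⟨n, l, _, hl, rfl⟩ := exists_mem_ball hX g
      obtain ⟨f, hf, h⟩ := hcos l hl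
      exact ⟨⟨f, hf⟩, QuotientGroup.eq.2 h⟩
    exact Finite.of_surjective _ hsurj
  exact Subgroup.finiteIndex_of_finite_quotient

end Pool.Agent.Helper48.ST
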